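import Pool.Agent.Helper87.MC.Main
import Pool.Agent.Helper49.MC.UpperHalf

/-!
Minimal complements (MP_d8224a_co): consequences for the threshold `T(G)`.
-/

namespace Pool.Agent.Helper87.MC

open Finset Pointwise

noncomputable abbrev TT (G : Type) [AddCommGroup G] [Fintype G] : ℕ :=
  Pool.Agent.Results.MP_d8224a_co.UpperHalf.T G

/-- no coset of a nontrivial subgroup is contained in `C` -/
def NoCoset {G : Type} [AddCommGroup G] (C : Set G) : Prop :=
  ∀ (H : AddSubgroup G) (x : G), H ≠ ⊥ → ¬ (∀ h ∈ H, x + h ∈ C)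

theorem cosetFree_of_noCoset {G : Type} [AddCommGroup G] [Finite G] {C : Set G}
    (h : NoCoset C) : CosetFree C := by
  intro x _ w hw
  by_contra hcon
  push Not at hcon
  refine h (AddSubgroup.zmultiples w) x ?_ ?_
  · rw [Ne, AddSubgroup.zmultiples_eq_bot]; exact hw
  · intro y hy
    rw [← mem_multiples_iff_mem_zmultiples] at hy
    obtain ⟨j, rfl⟩ := (AddSubmonoid.mem_multiples_iff _ _).1 hy
    exact hcon j

theorem noCoset_of_small {G : Type} [AddCommGroup G] [Fintype G] {C : Set G}
    (h : C.ncard < (Fintype.card G).minFac) : NoCoset C := by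
  intro H x hH hall
  have h1 : Nat.card H ∣ Fintype.card G := by
    rw [← Nat.card_eq_fintype_card]; exact AddSubgroup.card_addSubgroup_dvd_card H
  have h2 : 2 ≤ Nat.card H := by
    have : Nat.card H ≠ 1 := by
      rw [Ne, AddSubgroup.card_eq_one]; exact hH
    have h0 : 0 < Nat.card H := Nat.card_pos
    omega
  have h3 : (Fintype.card G).minFac ≤ Nat.card H := Nat.minFac_le_of_dvd h2 h1
  have h4 : Nat.card H ≤ C.ncard := by
    have : ((fun y => x + y) '' (H : Set G)) ⊆ C := by
      rintro _ ⟨y, hy, rfl⟩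
      exact hall y hy
    have h5 := Set.ncard_le_ncard this (Set.toFinite _)
    rw [Set.ncard_image_of_injective _ (add_right_injective x)] at h5
    exact h5
  omega

theorem isMC_singleton {G : Type} [AddCommGroup G] (c : G) : IsMC ({c} : Set G) := by
  refine ⟨Set.univ, ?_, ?_⟩
  · ext g
    simp only [Set.mem_univ, iff_true]
    exact ⟨g - c, Set.mem_univ _, c, rfl, by simp⟩
  · intro C' hC' h
    have : C' = ∅ := by
      rcases Set.subset_singleton_iff_eq.1 hC'.1 with h1 | h1
      · exact h1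
      · exfalso; rw [h1] at hC'; exact hC'.2 (subset_refl _)
    rw [this] at h
    have h0 : (0 : G) ∈ (∅ : Set G) := by
      have : (Set.univ : Set G) + ∅ = ∅ := Set.add_empty
      rw [this] at h
      rw [h]; exact Set.mem_univ _
    exact h0

theorem le_TT {G : Type} [AddCommGroup G] [Fintype G] (t : ℕ) (ht : t ≤ Fintype.card G)
    (h : ∀ C : Set G, C.Nonempty → C.ncard ≤ t → IsMC C) : t ≤ TT G := by
  unfold TT Pool.Agent.Results.MP_d8224a_co.UpperHalf.T
  apply le_csSup
  · exact ⟨Fintype.card G, fun s hs => hs.1⟩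
  · exact ⟨ht, h⟩

theorem one_le_TT (G : Type) [AddCommGroup G] [Fintype G] : 1 ≤ TT G := by
  apply le_TT 1 Fintype.card_pos
  intro C hC h1
  have h2 : C.ncard = 1 := by
    have : 0 < C.ncard := (Set.ncard_pos (Set.toFinite C)).mpr hC
    omega
  obtain ⟨c, rfl⟩ := Set.ncard_eq_one.1 h2
  exact isMC_singleton c

theorem noCoset_isMC (hCheb : GCheb) (hE : GExpM) (hC : GClos) (hDet : GDet)
    (G : Type) [AddCommGroup G] [Fintype G] (C : Set G) (hne : C.Nonempty)
    (hno : NoCoset C)
    (hk : (C.ncard : ℝ) ≤ Real.sqrt (Fintype.card G / Real.log (Fintype.card G) ^ 3) / 96) :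
    IsMC C := by
  classical
  have hfin := Set.toFinite C
  set C' := hfin.toFinset with hC'
  have h1 : (C' : Set G) = C := hfin.coe_toFinset
  have h2 : C'.card = C.ncard := (Set.ncard_eq_toFinset_card C hfin).symm
  rw [← h1]
  apply main_asymp hCheb hE hC hDet G C'
  · rw [← Finset.coe_nonempty, h1]; exact hne
  · rw [h2]; exact hk
  · rw [h1]; exact cosetFree_of_noCoset hno

theorem lower (hCheb : GCheb) (hE : GExpM) (hC : GClos) (hDet : GDet)
    (G : Type) [AddCommGroup G] [Fintype G] :
    min (Real.sqrt (Fintype.card G / Real.log (Fintype.card G) ^ 3) / 192)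
      ((Fintype.card G).minFac - 1 : ℝ) ≤ TT G := by
  classical
  set x := Real.sqrt (Fintype.card G / Real.log (Fintype.card G) ^ 3) / 96 with hx
  have hx0 : 0 ≤ x := by positivity
  have h12 : Real.sqrt (Fintype.card G / Real.log (Fintype.card G) ^ 3) / 192 = x / 2 := by
    rw [hx]; ring
  rw [h12]
  have hcard : 1 ≤ Fintype.card G := Fintype.card_pos
  have hmf : (Fintype.card G).minFac ≤ Fintype.card G := Nat.minFac_le (by omega)
  have hmf1 : 1 ≤ (Fintype.card G).minFac := Nat.minFac_pos _
  set s : ℕ := min ⌊x⌋₊ ((Fintype.card G).minFac - 1) with hs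
  have hsT : s ≤ TT G := by
    apply le_TT s
    · omega
    · intro C hCne hCs
      apply noCoset_isMC hCheb hE hC hDet G C hCne
      · apply noCoset_of_small
        omega
      · have h1 : (C.ncard : ℝ) ≤ (⌊x⌋₊ : ℝ) := by
          have : C.ncard ≤ ⌊x⌋₊ := by omega
          exact_mod_cast this
        exact h1.trans (Nat.floor_le hx0)
  have h1T : (1 : ℝ) ≤ TT G := by exact_mod_cast one_le_TT G
  by_cases hx1 : x ≤ 2
  · refine (min_le_left _ _).trans ?_
    linarith
  · push Not at hx1
    have hfl : x - 1 < (⌊x⌋₊ : ℝ) := Nat.sub_one_lt_floor x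
    rcases le_total ⌊x⌋₊ ((Fintype.card G).minFac - 1) with h | h
    · have h2 : s = ⌊x⌋₊ := by rw [hs]; exact min_eq_left h
      refine (min_le_left _ _).trans ?_
      have h3 : ((⌊x⌋₊ : ℕ) : ℝ) ≤ TT G := by rw [h2] at hsT; exact_mod_cast hsT
      linarith
    · have h2 : s = (Fintype.card G).minFac - 1 := by rw [hs]; exact min_eq_right h
      refine (min_le_right _ _).trans ?_
      have h3 : (((Fintype.card G).minFac - 1 : ℕ) : ℝ) ≤ TT G := by
        rw [h2] at hsT; exact_mod_cast hsT
      rw [Nat.cast_sub hmf1] at h3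
      simpa using h3

theorem lower_prime (hCheb : GCheb) (hE : GExpM) (hC : GClos) (hDet : GDet)
    (G : Type) [AddCommGroup G] [Fintype G] (hp : (Fintype.card G).Prime) :
    Real.sqrt (Fintype.card G / Real.log (Fintype.card G) ^ 3) / 192 ≤ TT G := by
  have h := lower hCheb hE hC hDet G
  rw [hp.minFac_eq] at h
  refine le_trans (le_min le_rfl ?_) h
  set p := Fintype.card G with hpdef
  have hp2 : (2 : ℝ) ≤ p := by exact_mod_cast hp.two_le
  have hlog2 : (0.6931 : ℝ) < Real.log 2 := by
    have := Real.log_two_gt_d9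
    linarith
  have hlogn : Real.log 2 ≤ Real.log p := Real.log_le_log (by norm_num) hp2
  have hL0 : (0.6931 : ℝ) < Real.log p := by linarith
  have h3 : (1 : ℝ) / 4 ≤ Real.log p ^ 3 := by
    have : (0.6931 : ℝ) ^ 3 ≤ Real.log p ^ 3 := by gcongr
    norm_num at this ⊢
    linarith
  have h4 : (p : ℝ) / Real.log p ^ 3 ≤ 4 * p := by
    rw [div_le_iff₀ (by positivity)]
    nlinarith
  have h5 : Real.sqrt (p / Real.log p ^ 3) ≤ Real.sqrt (4 * p) := Real.sqrt_le_sqrt h4
  have h6 : Real.sqrt (4 * p) ≤ 192 * ((p : ℝ) - 1) := by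
    rw [Real.sqrt_le_left (by linarith)]
    nlinarith
  linarith

end Pool.Agent.Helper87.MC
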