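import Mathlib

/-!
Minimal complements (MP_d8224a_co): goals for the lower bound for sets that contain no coset of a
nontrivial subgroup.
-/

namespace Pool.Agent.Helper87.MC

open Finset Pointwise

/-- `C` is a minimal complement in `G`. -/
def IsMC {G : Type} [AddCommGroup G] (C : Set G) : Prop :=
  ∃ W : Set G, W + C = Set.univ ∧ ∀ C' : Set G, C' ⊂ C → W + C' ≠ Set.univ

/-- `E` contains no coset of a nontrivial cyclic subgroup. -/
def CosetFree {G : Type} [AddCommGroup G] (E : Set G) : Prop :=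
  ∀ x ∈ E, ∀ w : G, w ≠ 0 → ∃ j : ℕ, x + j • w ∉ E

open Classical in
/-- `r(w) = #{x ∈ E : x + w ∈ E}`. -/
noncomputable def rr {G : Type} [AddCommGroup G] (E : Finset G) (w : G) : ℕ :=
  (E.filter (fun x => x + w ∈ E)).card

open Classical in
/-- LEMA: the fractional lemma. -/
def GLemA : Prop := ∀ (G : Type) [AddCommGroup G] [Fintype G] (ν : G → ℝ),
  (∀ w, 0 ≤ ν w) → ν 0 = 0 → ∀ E : Finset G, E.Nonempty → CosetFree (E : Set G) →
  (∀ z, z ∉ E → (∑ w : G, (if z - w ∈ E then ν w else 0)) ≤ 1) →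
  ∀ S : Finset G, (∑ w ∈ S, ν w * ((rr E w : ℝ) / E.card)) ^ 2
    ≤ 4 * (∑ w ∈ S, ν w) * Real.log E.card

open Classical in
/-- LEMD: the random closure lemma, for an arbitrary finite probability space `Ω`. -/
def GLemD : Prop := ∀ (G : Type) [AddCommGroup G] [Fintype G] (D : Finset G), D.Nonempty →
  CosetFree (D : Set G) → ∀ (Ω : Type) [Fintype Ω] (S : Ω → Set G) (ρ t : ℝ), 0 < ρ → 0 < t →
  (∀ z, z ∉ D → (((univ : Finset Ω).filter (fun ω => z ∈ S ω)).card : ℝ) ≤ ρ * Fintype.card Ω) →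
  (((univ : Finset Ω).filter (fun ω => ∃ w : G, w ≠ 0 ∧ (D.card : ℝ) ≤ t * rr D w ∧
      ∀ x ∈ D, x + w ∉ D → x + w ∈ S ω)).card : ℝ)
    ≤ 4 * t ^ 2 * ρ * Real.log D.card * Fintype.card Ω

open Classical in
/-- PAIR: the law of `ξ i - ξ i'`. -/
def GPair : Prop := ∀ (G : Type) [AddCommGroup G] [Fintype G] (m : ℕ) (i i' : Fin m), i ≠ i' →
  ∀ P : Finset G, ((univ : Finset (Fin m → G)).filter (fun ξ => ξ i - ξ i' ∈ P)).card
    * Fintype.card G = P.card * Fintype.card G ^ m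

open Classical in
/-- PAIR2: two different pairs are independent. -/
def GPair2 : Prop := ∀ (G : Type) [AddCommGroup G] [Fintype G] (m : ℕ) (i i' j j' : Fin m),
  i ≠ i' → j ≠ j' → ¬ (i = j ∧ i' = j') → ¬ (i = j' ∧ i' = j) → ∀ P : Finset G,
  ((univ : Finset (Fin m → G)).filter (fun ξ => ξ i - ξ i' ∈ P ∧ ξ j - ξ j' ∈ P)).card
    * Fintype.card G ^ 2 = P.card ^ 2 * Fintype.card G ^ m

open Classical in
/-- CHEB: Chebyshev. -/
def GCheb : Prop := ∀ (G : Type) [AddCommGroup G] [Fintype G] (P : Finset G), 1 ≤ P.card →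
  1024 * P.card ^ 2 ≤ Fintype.card G →
  ((univ : Finset (Fin (4 * P.card) → G)).filter (fun ξ =>
    P.card ≤ ((univ : Finset (Fin (4 * P.card))).filter
      (fun i => ∃ i', i' ≠ i ∧ ξ i - ξ i' ∈ P)).card)).card * (8 * P.card)
    ≤ Fintype.card G ^ (4 * P.card)

open Classical in
/-- EXPM: exponential moments. -/
def GExpM : Prop := ∀ (G : Type) [AddCommGroup G] [Fintype G] (D : Finset G) (t : ℕ),
  1 ≤ D.card → Real.log (8 * Fintype.card G) ≤ t → 1024 * D.card ^ 2 ≤ Fintype.card G →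
  ((univ : Finset (Fin (4 * D.card) → G)).filter (fun ξ => ∃ g : G,
    D.card ≤ ∑ i, (if t * rr D (g - ξ i) < D.card then rr D (g - ξ i) else 0))).card * 8
    ≤ Fintype.card G ^ (4 * D.card)

open Classical in
/-- CLOS: the closure event. -/
def GClos : Prop := ∀ (G : Type) [AddCommGroup G] [Fintype G] (D : Finset G) (t : ℕ),
  1 ≤ D.card → 1 ≤ t → CosetFree (D : Set G) →
  (256 : ℝ) * t ^ 2 * D.card ^ 2 * Real.log D.card ≤ Fintype.card G →
  ((univ : Finset (Fin (4 * D.card) → G)).filter (fun ξ => D.card ≤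
    ((univ : Finset (Fin (4 * D.card))).filter (fun i => ∃ w : G, w ≠ 0 ∧
      D.card ≤ t * rr D w ∧ ∀ x ∈ D, x + w ∉ D → ∃ i', i' ≠ i ∧ ξ i + (x + w) - ξ i' ∈ D)).card)).card
      * 4 ≤ Fintype.card G ^ (4 * D.card)

open Classical in
/-- DET: the deterministic construction. -/
def GDet : Prop := ∀ (G : Type) [AddCommGroup G] [Fintype G] (D : Finset G) (t : ℕ)
  (ξ : Fin (4 * D.card) → G), 1 ≤ D.card →
  ((univ : Finset (Fin (4 * D.card))).filter (fun i => ∃ w : G, w ≠ 0 ∧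
      D.card ≤ t * rr D w ∧ ∀ x ∈ D, x + w ∉ D → ∃ i', i' ≠ i ∧ ξ i + (x + w) - ξ i' ∈ D)).card
        < D.card →
  (∀ g : G, ∑ i, (if t * rr D (g - ξ i) < D.card then rr D (g - ξ i) else 0) < D.card) →
  (∀ d ∈ D, ((univ : Finset (Fin (4 * D.card))).filter
      (fun i => ∃ i', i' ≠ i ∧ ξ i + d - ξ i' ∈ D)).card < D.card) →
  IsMC ((-D : Finset G) : Set G)

end Pool.Agent.Helper87.MC
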