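import Pool.Agent.Helper87.MC.Final
import Pool.Agent.Helper19.MC.Det
import Pool.Agent.Helper52.MC.Pair
import Pool.Agent.Helper52.MC.LemA
import Pool.Agent.Helper65.MC.LemD
import Pool.Agent.Helper39.MC.ExpM
import Pool.Agent.Helper64.MC.Cheb
import Pool.Agent.Helper96.MC.Clos

/-!
Minimal complements in finite abelian groups: sets that contain no coset of a nontrivial subgroup
are minimal complements up to size `√n / (log n)^(3/2)`; hence `T(G)` is `√|G|` up to logarithmic
factors for groups of prime order.
-/

namespace Pool.Agent.Results.MP_d8224a_co.CosetFree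

open Pointwise

/-- `C` is a minimal complement in `G`: for some `W ⊆ G` one has `W + C = G`, and `W + C' ≠ G` for
every proper subset `C'` of `C`. -/
def IsMinimalComplement {G : Type} [AddCommGroup G] (C : Set G) : Prop :=
  ∃ W : Set G, W + C = Set.univ ∧ ∀ C' : Set G, C' ⊂ C → W + C' ≠ Set.univ

/-- The largest `t ≤ |G|` such that every nonempty subset of `G` with at most `t` elements is a
minimal complement in `G`. -/
noncomputable def T (G : Type) [AddCommGroup G] [Fintype G] : ℕ :=
  sSup {t : ℕ | t ≤ Fintype.card G ∧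
    ∀ C : Set G, C.Nonempty → C.ncard ≤ t → IsMinimalComplement C}

/-- (1) Every nonempty subset `C` of a finite abelian group `G` which contains no coset of a
nontrivial subgroup and has at most `√(n / (log n)³) / 96` elements (`n = |G|`) is a minimal
complement. (2) If `q` is the smallest prime factor of `|G|`, then
`T(G) ≥ min (√(n / (log n)³) / 192) (q - 1)`. (3) For groups of prime order `T(G)` is `√|G|` up to
powers of `log |G|`. -/
theorem result :
    (∀ (G : Type) [AddCommGroup G] [Fintype G] (C : Set G), C.Nonempty →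
      (∀ (H : AddSubgroup G) (x : G), H ≠ ⊥ → ¬ (∀ h ∈ H, x + h ∈ C)) →
      (C.ncard : ℝ) ≤ Real.sqrt (Fintype.card G / Real.log (Fintype.card G) ^ 3) / 96 →
      IsMinimalComplement C) ∧
    (∀ (G : Type) [AddCommGroup G] [Fintype G],
      min (Real.sqrt (Fintype.card G / Real.log (Fintype.card G) ^ 3) / 192)
        ((Fintype.card G).minFac - 1 : ℝ) ≤ T G) ∧
    (∃ K : ℝ, ∀ (G : Type) [AddCommGroup G] [Fintype G], (Fintype.card G).Prime →
      Real.sqrt (Fintype.card G / Real.log (Fintype.card G) ^ 3) / 192 ≤ T G ∧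
      (T G : ℝ) ≤ K * Real.sqrt (Fintype.card G) * (Real.log (Fintype.card G)) ^ 3) := by
  have hA : Helper87.MC.GLemA := Helper52.MC.lemA
  have hD : Helper87.MC.GLemD := Helper65.MC.lemD hA
  have hP := Helper52.MC.pair
  have hP2 := Helper52.MC.pair2
  have hCh : Helper87.MC.GCheb := Helper64.MC.cheb hP hP2
  have hE : Helper87.MC.GExpM := Helper39.MC.expM
  have hC : Helper87.MC.GClos := Helper96.MC.clos hD hP
  have hDet : Helper87.MC.GDet := Helper19.MC.det
  refine ⟨?_, ?_, ?_⟩
  · intro G _ _ C hne hno hk
    exact Helper87.MC.noCoset_isMC hCh hE hC hDet G C hne hno hk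
  · intro G _ _
    exact Helper87.MC.lower hCh hE hC hDet G
  · obtain ⟨K, hK⟩ := Pool.Agent.Results.MP_d8224a_co.UpperHalf.result
    refine ⟨K, ?_⟩
    intro G _ _ hp
    exact ⟨Helper87.MC.lower_prime hCh hE hC hDet G hp, hK G hp.two_le⟩

end Pool.Agent.Results.MP_d8224a_co.CosetFree
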