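import Pool.Agent.Helper87.MC.Goals

/-!
Minimal complements (MP_d8224a_co): assembly of the random construction.
-/

namespace Pool.Agent.Helper87.MC

open Finset Pointwise

open Classical in
theorem cheb' (hCheb : GCheb) (G : Type) [AddCommGroup G] [Fintype G] (D : Finset G) (d : G)
    (k : ℕ) (hk : D.card = k) (hk1 : 1 ≤ k) (hn : 1024 * k ^ 2 ≤ Fintype.card G) :
    ((univ : Finset (Fin (4 * k) → G)).filter (fun ξ =>
      k ≤ ((univ : Finset (Fin (4 * k))).filter
        (fun i => ∃ i', i' ≠ i ∧ ξ i + d - ξ i' ∈ D)).card)).card * (8 * k)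
      ≤ Fintype.card G ^ (4 * k) := by
  have hP : (D.image (fun x => x - d)).card = k := by
    rw [Finset.card_image_of_injective _ (sub_left_injective), hk]
  have := hCheb G (D.image (fun x => x - d)) (by omega) (by rw [hP]; exact hn)
  have hmem : ∀ a b : G, a - b ∈ D.image (fun x => x - d) ↔ a + d - b ∈ D := by
    intro a b
    rw [Finset.mem_image]
    constructor
    · rintro ⟨x, hx, hxe⟩
      have : a + d - b = x := by
        have h2 : x = (a - b) + d := by rw [← hxe]; abel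
        rw [h2]; abel
      rw [this]; exact hx
    · intro h
      exact ⟨_, h, by abel⟩
  simp only [hmem] at this
  generalize (D.image (fun x => x - d)).card = kk at *
  subst hP
  exact this

open Classical in
theorem main (hCheb : GCheb) (hE : GExpM) (hC : GClos) (hDet : GDet)
    (G : Type) [AddCommGroup G] [Fintype G] (C : Finset G) (t : ℕ) (hk1 : 1 ≤ C.card)
    (ht : Real.log (8 * Fintype.card G) ≤ t) (hn : 1024 * C.card ^ 2 ≤ Fintype.card G)
    (hn2 : (256 : ℝ) * t ^ 2 * C.card ^ 2 * Real.log C.card ≤ Fintype.card G)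
    (hcf : CosetFree (C : Set G)) : IsMC (C : Set G) := by
  set D : Finset G := -C with hD
  have hDk : D.card = C.card := by rw [hD, Finset.card_neg]
  have hDcf : CosetFree (D : Set G) := by
    intro x hx w hw
    obtain ⟨j, hj⟩ := hcf (-x) (by simpa [hD] using hx) (-w) (by simpa using hw)
    refine ⟨j, ?_⟩
    intro hcon
    apply hj
    have : -(x + j • w) ∈ C := by simpa [hD] using hcon
    have h2 : -x + j • (-w) = -(x + j • w) := by rw [smul_neg]; abel
    rw [h2]; exact_mod_cast this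
  have hnpos : 1 ≤ Fintype.card G := Fintype.card_pos
  have ht1 : 1 ≤ t := by
    by_contra hcon
    have : t = 0 := by omega
    rw [this] at ht
    have h8 : (1 : ℝ) < 8 * Fintype.card G := by
      have : (1 : ℝ) ≤ Fintype.card G := by exact_mod_cast hnpos
      linarith
    have := Real.log_pos h8
    simp at ht
    linarith
  have hCD : C = -D := by rw [hD, neg_neg]
  rw [hCD]
  rw [← hDk] at hk1 hn hn2
  have e1 := hC G D t hk1 ht1 hDcf hn2
  have e2 := hE G D t hk1 ht hn
  have e3 : ∀ d : G, _ := fun d => cheb' hCheb G D d D.card rfl hk1 hn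
  set N := Fintype.card G ^ (4 * D.card) with hN
  have hNpos : 0 < N := by positivity
  set B1 := (univ : Finset (Fin (4 * D.card) → G)).filter (fun ξ => D.card ≤
    ((univ : Finset (Fin (4 * D.card))).filter (fun i => ∃ w : G, w ≠ 0 ∧
      D.card ≤ t * rr D w ∧ ∀ x ∈ D, x + w ∉ D → ∃ i', i' ≠ i ∧ ξ i + (x + w) - ξ i' ∈ D)).card)
    with hB1
  set B2 := (univ : Finset (Fin (4 * D.card) → G)).filter (fun ξ => ∃ g : G,
    D.card ≤ ∑ i, (if t * rr D (g - ξ i) < D.card then rr D (g - ξ i) else 0)) with hB2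
  let B3 : G → Finset (Fin (4 * D.card) → G) := fun d =>
    (univ : Finset (Fin (4 * D.card) → G)).filter (fun ξ =>
      D.card ≤ ((univ : Finset (Fin (4 * D.card))).filter
        (fun i => ∃ i', i' ≠ i ∧ ξ i + d - ξ i' ∈ D)).card)
  have hB3 : ∀ d, (B3 d).card * (8 * D.card) ≤ N := e3
  have hsum : (D.biUnion B3).card * 8 ≤ N := by
    have h1 : (D.biUnion B3).card ≤ ∑ d ∈ D, (B3 d).card := Finset.card_biUnion_le
    have h2 : (∑ d ∈ D, (B3 d).card) * (8 * D.card) ≤ D.card * N := by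
      rw [Finset.sum_mul, ← smul_eq_mul (D.card) N, ← Finset.sum_const]
      exact Finset.sum_le_sum (fun d _ => hB3 d)
    have h3 : D.card * ((∑ d ∈ D, (B3 d).card) * 8) ≤ D.card * N := by
      calc D.card * ((∑ d ∈ D, (B3 d).card) * 8) = (∑ d ∈ D, (B3 d).card) * (8 * D.card) := by ring
        _ ≤ _ := h2
    have h4 := Nat.le_of_mul_le_mul_left h3 (by omega)
    calc (D.biUnion B3).card * 8 ≤ (∑ d ∈ D, (B3 d).card) * 8 := Nat.mul_le_mul_right _ h1
      _ ≤ N := h4
  have hcard : (B1 ∪ B2 ∪ D.biUnion B3).card < N := by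
    have h1 : (B1 ∪ B2 ∪ D.biUnion B3).card ≤ B1.card + B2.card + (D.biUnion B3).card :=
      (Finset.card_union_le _ _).trans (Nat.add_le_add_right (Finset.card_union_le _ _) _)
    omega
  have hex : ∃ ξ : Fin (4 * D.card) → G, ξ ∉ (B1 ∪ B2 ∪ D.biUnion B3) := by
    by_contra hcon
    push Not at hcon
    have : (univ : Finset (Fin (4 * D.card) → G)) ⊆ B1 ∪ B2 ∪ D.biUnion B3 := fun ξ _ => hcon ξ
    have h2 := Finset.card_le_card this
    rw [Finset.card_univ] at h2
    simp only [Fintype.card_pi, Finset.prod_const, Finset.card_univ, Fintype.card_fin] at h2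
    omega
  obtain ⟨ξ, hξ⟩ := hex
  simp only [Finset.mem_union, not_or, Finset.mem_biUnion, not_exists, not_and] at hξ
  obtain ⟨⟨hξ1, hξ2⟩, hξ3⟩ := hξ
  refine hDet G D t ξ hk1 ?_ ?_ ?_
  · by_contra hcon
    apply hξ1
    rw [hB1, Finset.mem_filter]
    exact ⟨Finset.mem_univ _, not_lt.1 hcon⟩
  · intro g
    by_contra hcon
    apply hξ2
    rw [hB2, Finset.mem_filter]
    exact ⟨Finset.mem_univ _, g, not_lt.1 hcon⟩
  · intro d hd
    by_contra hcon
    apply hξ3 d hd
    simp only [B3, Finset.mem_filter]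
    exact ⟨Finset.mem_univ _, not_lt.1 hcon⟩

/-- The asymptotic form. -/
theorem main_asymp (hCheb : GCheb) (hE : GExpM) (hC : GClos) (hDet : GDet)
    (G : Type) [AddCommGroup G] [Fintype G] (C : Finset G) (hCne : C.Nonempty)
    (hk : (C.card : ℝ) ≤ Real.sqrt (Fintype.card G / Real.log (Fintype.card G) ^ 3) / 96)
    (hcf : CosetFree (C : Set G)) : IsMC (C : Set G) := by
  have hk1 : 1 ≤ C.card := hCne.card_pos
  set n := Fintype.card G with hn
  have hnpos : 1 ≤ n := Fintype.card_pos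
  have hn2 : 2 ≤ n := by
    by_contra hcon
    have : n = 1 := by omega
    rw [this] at hk
    have h1 : (1 : ℝ) ≤ C.card := by exact_mod_cast hk1
    have h0 : Real.sqrt (((1 : ℕ) : ℝ) / Real.log ((1 : ℕ) : ℝ) ^ 3) / 96 = 0 := by
      simp
    rw [h0] at hk
    linarith
  have hlog2 : (0.6931 : ℝ) < Real.log 2 := by
    have := Real.log_two_gt_d9
    linarith
  have hn2' : (2 : ℝ) ≤ n := by exact_mod_cast hn2
  have hlogn : Real.log 2 ≤ Real.log n := Real.log_le_log (by norm_num) hn2'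
  set L := Real.log n with hL
  have hL0 : (0.6931 : ℝ) < L := by linarith
  have hk0 : (0 : ℝ) < C.card := by exact_mod_cast hk1
  -- `9216 k² L³ ≤ n`
  have hmain : 9216 * (C.card : ℝ) ^ 2 * L ^ 3 ≤ n := by
    have h1 : 96 * (C.card : ℝ) ≤ Real.sqrt (n / L ^ 3) := by linarith
    have h2 : (96 * (C.card : ℝ)) ^ 2 ≤ n / L ^ 3 := by
      have h3 : 0 ≤ (n : ℝ) / L ^ 3 := by positivity
      calc (96 * (C.card : ℝ)) ^ 2 ≤ (Real.sqrt (n / L ^ 3)) ^ 2 := by gcongr
        _ = n / L ^ 3 := Real.sq_sqrt h3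
    rw [le_div_iff₀ (by positivity)] at h2
    calc 9216 * (C.card : ℝ) ^ 2 * L ^ 3 = (96 * (C.card : ℝ)) ^ 2 * L ^ 3 := by ring
      _ ≤ (n : ℝ) := h2
  have hkn : (C.card : ℝ) ≤ n := by exact_mod_cast Finset.card_le_univ C
  have hlogk : Real.log C.card ≤ L := Real.log_le_log hk0 hkn
  have hlogk0 : 0 ≤ Real.log C.card := Real.log_nonneg (by exact_mod_cast hk1)
  set t := ⌈Real.log (8 * n)⌉₊ with ht
  have ht1 : Real.log (8 * n) ≤ t := Nat.le_ceil _
  have hlog8 : Real.log (8 * n) = 3 * Real.log 2 + L := by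
    rw [Real.log_mul (by norm_num) (by positivity)]
    have : (8 : ℝ) = 2 ^ 3 := by norm_num
    rw [this, Real.log_pow]
    push_cast
    ring
  have hlog2' : Real.log 2 < 0.6932 := by
    have := Real.log_two_lt_d9
    linarith
  have ht2 : (t : ℝ) ≤ 6 * L := by
    have h1 : (t : ℝ) < Real.log (8 * n) + 1 := Nat.ceil_lt_add_one (by rw [hlog8]; positivity)
    rw [hlog8] at h1
    nlinarith
  refine main hCheb hE hC hDet G C t hk1 ht1 ?_ ?_ hcf
  · have h1 : (1024 : ℝ) * (C.card : ℝ) ^ 2 ≤ n := by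
      have h2 : (1 : ℝ) ≤ 9 * L ^ 3 := by
        have : (0.6931 : ℝ) ^ 3 ≤ L ^ 3 := by gcongr
        norm_num at this ⊢
        linarith
      calc (1024 : ℝ) * (C.card : ℝ) ^ 2 = 1024 * (C.card : ℝ) ^ 2 * 1 := by ring
        _ ≤ 1024 * (C.card : ℝ) ^ 2 * (9 * L ^ 3) := by gcongr
        _ = 9216 * (C.card : ℝ) ^ 2 * L ^ 3 := by ring
        _ ≤ n := hmain
    exact_mod_cast h1
  · calc (256 : ℝ) * t ^ 2 * C.card ^ 2 * Real.log C.card
        ≤ 256 * (6 * L) ^ 2 * C.card ^ 2 * L := by gcongr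
      _ = 9216 * (C.card : ℝ) ^ 2 * L ^ 3 := by ring
      _ ≤ n := hmain

end Pool.Agent.Helper87.MC
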